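import Mathlib

namespace Pool.Agent.Results.MP_562107_co.Counter

open Finset

/-- The cells of the `m × n` grid, counted from `0`. -/
def grid (m n : ℕ) : Finset (ℕ × ℕ) := range m ×ˢ range n

def Adj (u v : ℕ × ℕ) : Prop :=
  (u.1 = v.1 ∧ (u.2 + 1 = v.2 ∨ v.2 + 1 = u.2)) ∨ (u.2 = v.2 ∧ (u.1 + 1 = v.1 ∨ v.1 + 1 = u.1))

/-- A height function on the grid, extended by `0` outside the grid. -/
def HF (m n : ℕ) (h : ℕ × ℕ → ℤ) : Prop :=
  h (0, 0) = 0 ∧ (∀ v ∉ grid m n, h v = 0) ∧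
    ∀ u ∈ grid m n, ∀ v ∈ grid m n, Adj u v → |h u - h v| = 1

/-- A strict local minimum or a strict local maximum. -/
def Ext (m n : ℕ) (h : ℕ × ℕ → ℤ) (v : ℕ × ℕ) : Prop :=
  (∀ u ∈ grid m n, Adj u v → h u = h v + 1) ∨ (∀ u ∈ grid m n, Adj u v → h u = h v - 1)

/-- `E_d(m,n)`. -/
noncomputable def E (d m n : ℕ) : ℕ :=
  {h | HF m n h ∧ {v | v ∈ grid m n ∧ Ext m n h v}.ncard = d}.ncard

/-- `F_{d,m}(z)`. -/
noncomputable def F (d m : ℕ) : PowerSeries ℚ := PowerSeries.mk fun n => if 2 ≤ n then E d m n else 0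

def x (s a a' : ℤ) : ℕ := if (s = 1 ∧ a ≠ 1 ∧ a' ≠ -1) ∨ (s = -1 ∧ a ≠ -1 ∧ a' ≠ 1) then 1 else 0

def S (h : ℕ × ℕ → ℤ) (j : ℕ) : ℤ := h (1, j) - h (0, j)

def D (h : ℕ × ℕ → ℤ) (i j : ℕ) : ℤ := h (i, j) - h (i, j - 1)

def cnt (h : ℕ × ℕ → ℤ) (n : ℕ) : ℕ := ∑ j ∈ range n,
  (x (S h j) (D h 0 j) (D h 0 (j + 1)) + x (-S h j) (D h 1 j) (D h 1 (j + 1)))

def ex (n : ℕ) (h : ℕ × ℕ → ℤ) (a b : ℤ) (v : ℕ × ℕ) : ℤ :=
  if v = (0, n + 1) then h (0, n) + a else if v = (1, n + 1) then h (1, n) + b else h v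

theorem hf (n : ℕ) (h : ℕ × ℕ → ℤ) : HF 2 (n + 1) h ↔ h (0, 0) = 0 ∧
    (∀ i j, 2 ≤ i ∨ n < j → h (i, j) = 0) ∧ (∀ j ≤ n, S h j = 1 ∨ S h j = -1) ∧
    ∀ i < 2, ∀ j < n, D h i (j + 1) = 1 ∨ D h i (j + 1) = -1 := by
  simp only [HF, grid, Adj, Prod.forall, mem_product, mem_range, S, D, Nat.add_sub_cancel,
    abs_eq (zero_le_one' ℤ)]
  refine and_congr_right fun _ => and_congr (forall₂_congr fun i j => imp_congr_left (by omega))
    ⟨fun a => ⟨fun j _ => a 1 j (by omega) 0 j (by omega) (by omega),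
      fun i _ j _ => a i _ (by omega) i j (by omega) (by omega)⟩, fun ⟨a, b⟩ i j p k l q r => ?_⟩
  obtain ⟨rfl, rfl | rfl⟩ | ⟨rfl, r⟩ := r
  · have := b i p.1 j (by omega); omega
  · exact b i p.1 l (by omega)
  · have := a j (by omega)
    obtain ⟨rfl, rfl⟩ | ⟨rfl, rfl⟩ : i = 0 ∧ k = 1 ∨ i = 1 ∧ k = 0 := by omega
    all_goals omega

theorem nb (n i j : ℕ) (hi : i < 2) (hj : j ≤ n) (P : ℕ × ℕ → Prop) :
    (∀ u ∈ grid 2 (n + 1), Adj u (i, j) → P u) ↔
      P (1 - i, j) ∧ (0 < j → P (i, j - 1)) ∧ (j < n → P (i, j + 1)) := by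
  simp only [grid, Adj, Prod.forall, mem_product, mem_range]
  refine ⟨fun a => ⟨a _ _ (by omega) (by omega), fun _ => a _ _ (by omega) (by omega),
    fun _ => a _ _ (by omega) (by omega)⟩, fun ⟨a, b, c⟩ k l p q => ?_⟩
  obtain ⟨rfl, rfl | rfl⟩ | ⟨rfl, q⟩ := q
  · exact b (by omega)
  · exact c (by omega)
  · rwa [show k = 1 - i by omega]

theorem card (n : ℕ) (h : ℕ × ℕ → ℤ) (H : HF 2 (n + 1) h) :
    {v | v ∈ grid 2 (n + 1) ∧ Ext 2 (n + 1) h v}.ncard =
      cnt h n + x (S h n) (D h 0 n) 0 + x (-S h n) (D h 1 n) 0 := by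
  classical
  obtain ⟨-, -, a, b⟩ := (hf n h).1 H
  have k : ∀ j ≤ n, ∀ i < 2, (if Ext 2 (n + 1) h (i, j) then 1 else 0) =
      x (if i = 0 then S h j else -S h j) (D h i j) (if j < n then D h i (j + 1) else 0) := by
    intro j p i q
    have a := a j p
    have c := b i q j
    have d : 0 < j → D h i j = 1 ∨ D h i j = -1 := fun z => by
      simpa [Nat.sub_add_cancel z] using b i q (j - 1) (by omega)
    have e : j = 0 → D h i j = 0 := fun z => by simp [z, D]
    refine if_congr ?_ rfl rfl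
    rw [Ext, nb n i j q p, nb n i j q p]
    simp only [S, D, Nat.add_sub_cancel] at *
    by_cases y : j < n <;> by_cases z : j = 0 <;> interval_cases i <;>
      simp only [Nat.sub_zero, Nat.sub_self, Nat.pos_iff_ne_zero, ne_eq, eq_true, eq_false, y, z,
        if_true, if_false, one_ne_zero, not_true, not_false_iff, forall_const, false_imp_iff,
        true_and, and_true] at * <;> omega
  rw [← coe_filter, Set.ncard_coe_finset, card_filter, grid, sum_product_right, sum_range_succ, cnt,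
    add_assoc]
  congr 1
  · refine sum_congr rfl fun j p => ?_
    have p := mem_range.1 p
    rw [sum_range_succ, sum_range_one, k j p.le 0 (by omega), k j p.le 1 (by omega)]
    simp [p]
  · rw [sum_range_succ, sum_range_one, k n le_rfl 0 (by omega), k n le_rfl 1 (by omega)]
    simp

def st (s : ℤ) (k : Fin 3) : ℤ × ℤ := ![(1, 1), (-1, -1), (s, -s)] k

noncomputable def L : ℕ → Finset (ℕ × ℕ → ℤ)
  | 0 => by classical exact {Pi.single (1, 0) 1, Pi.single (1, 0) (-1)}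
  | n + 1 => by
    classical exact (L n ×ˢ univ).image fun p => ex n p.1 (st (S p.1 n) p.2).1 (st (S p.1 n) p.2).2

theorem exl (n : ℕ) (h : ℕ × ℕ → ℤ) (a b : ℤ) (i j : ℕ) (p : j ≤ n) : ex n h a b (i, j) = h (i, j) := by
  simp [ex, show j ≠ n + 1 by omega]

theorem exS (n : ℕ) (h : ℕ × ℕ → ℤ) (a b : ℤ) : S (ex n h a b) (n + 1) = S h n + b - a ∧
    D (ex n h a b) 0 (n + 1) = a ∧ D (ex n h a b) 1 (n + 1) = b ∧
    (∀ j ≤ n, S (ex n h a b) j = S h j) ∧ ∀ i, ∀ j ≤ n, D (ex n h a b) i j = D h i j := by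
  refine ⟨?_, ?_, ?_, fun j p => ?_, fun i j p => ?_⟩
  · simp [S, ex]; ring
  · simp [D, ex]
  · simp [D, ex]
  · simp [S, exl _ _ _ _ _ _ p]
  · rw [D, D, exl _ _ _ _ _ _ p, exl _ _ _ _ _ _ (by omega)]

theorem memL (n : ℕ) : ∀ h, h ∈ L n ↔ HF 2 (n + 1) h := by
  induction n with
  | zero =>
    intro h
    simp only [L, hf, mem_insert, mem_singleton]
    refine ⟨?_, fun ⟨a, b, c, _⟩ => ?_⟩
    · rintro (rfl | rfl) <;> refine ⟨by simp, fun i j p => Pi.single_eq_of_ne (by grind) _, ?_, by simp⟩ <;>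
        simp [S]
    · have t : h = Pi.single (1, 0) (h (1, 0)) := funext fun ⟨i, j⟩ => by
        by_cases p : 2 ≤ i ∨ 0 < j
        · rw [b i j p, Pi.single_eq_of_ne (by grind)]
        · obtain ⟨rfl | rfl, rfl⟩ : (i = 0 ∨ i = 1) ∧ j = 0 := by omega
          all_goals simp [a]
      have := c 0 le_rfl
      rw [S, a, sub_zero] at this
      exact this.imp (fun e => by rwa [e] at t) fun e => by rwa [e] at t
  | succ n ih =>
    intro h
    simp only [L, mem_image, mem_product, mem_univ, and_true, Prod.exists, ih, hf]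
    constructor
    · rintro ⟨g, k, ⟨a, b, c, d⟩, rfl⟩
      obtain ⟨e1, e2, e3, e4, e5⟩ := exS n g (st (S g n) k).1 (st (S g n) k).2
      have := c n le_rfl
      refine ⟨by rwa [exl _ _ _ _ _ _ (by omega)], fun i j p => ?_, fun j p => ?_, fun i q j p => ?_⟩
      · rw [ex, if_neg (by grind), if_neg (by grind), b i j (by omega)]
      · obtain p | rfl := p.lt_or_eq
        · exact e4 j (by omega) ▸ c j (by omega)
        · rw [e1]; fin_cases k <;> simp [st] <;> omega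
      · obtain p | rfl := (Nat.lt_succ_iff.1 p).lt_or_eq
        · exact e5 i (j + 1) p ▸ d i q j p
        · interval_cases i <;> simp only [e2, e3] <;> fin_cases k <;> simp [st] <;> omega
    · rintro ⟨a, b, c, d⟩
      let g : ℕ × ℕ → ℤ := fun v => if v.2 ≤ n then h v else 0
      have s : ∀ j ≤ n, S g j = S h j := fun j p => by simp [S, g, p]
      have : ∃ k, st (S h n) k = (D h 0 (n + 1), D h 1 (n + 1)) := by
        have := c n (by omega)
        have := c _ le_rfl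
        have := d 0 (by omega) n (by omega)
        have := d 1 (by omega) n (by omega)
        simp only [Fin.exists_fin_succ, st, S, D, Nat.add_sub_cancel] at *
        simp
        omega
      obtain ⟨k, e⟩ := this
      refine ⟨g, k, ⟨by simpa [g] using a, fun i j p => ?_, fun j p => s j p ▸ c j (by omega),
        fun i q j p => ?_⟩, funext fun ⟨i, j⟩ => ?_⟩
      · simp only [g]
        split_ifs
        exacts [b i j (by omega), rfl]
      · simpa [D, g, p.le, show j + 1 ≤ n from p] using d i q j (by omega)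
      · rw [s n le_rfl, e]
        simp only [ex, D, g, Prod.mk.injEq, le_refl, if_true]
        split_ifs with p q r
        · simp [p]
        · simp [q]
        · rfl
        · exact (b i j (by omega)).symm

def V : ℕ → ℤ → ℤ → ℤ → ℕ → ℤ
  | 0, s, a, b, e => if e + x s a 0 + x (-s) b 0 = 6 then 1 else 0
  | j + 1, s, a, b, e => if 6 < e then 0 else ∑ k, V j (s + (st s k).2 - (st s k).1) (st s k).1
      (st s k).2 (e + (x s a (st s k).1 + x (-s) b (st s k).2))

theorem V0 (j : ℕ) (s a b : ℤ) (e : ℕ) (h : 6 < e) : V j s a b e = 0 := by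
  cases j <;> simp [V, h]
  omega

noncomputable def G (n j : ℕ) : ℤ := ∑ h ∈ L n, V j (S h n) (D h 0 n) (D h 1 n) (cnt h n)

theorem step (n j : ℕ) : G (n + 1) j = G n (j + 1) := by
  classical
  rw [G, L, sum_image, sum_product]
  · refine sum_congr rfl fun g _ => ?_
    rw [V]
    have t : ∀ a b, cnt (ex n g a b) (n + 1) =
        cnt g n + (x (S g n) (D g 0 n) a + x (-S g n) (D g 1 n) b) := fun a b => by
      obtain ⟨e1, e2, e3, e4, e5⟩ := exS n g a b
      rw [cnt, sum_range_succ, e2, e3, e4 n le_rfl, e5 _ n le_rfl, e5 _ n le_rfl]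
      congr 1
      refine sum_congr rfl fun i p => ?_
      have p := mem_range.1 p
      rw [e4 i p.le, e5 _ i p.le, e5 _ i p.le, e5 _ _ p, e5 _ _ p]
    simp only [t, (exS _ _ _ _).1, (exS _ _ _ _).2.1, (exS _ _ _ _).2.2.1]
    split_ifs with q
    · exact sum_eq_zero fun k _ => V0 _ _ _ _ _ (by omega)
    · rfl
  · rintro ⟨g, k⟩ p ⟨g', k'⟩ q e
    obtain ⟨-, b, c, -⟩ := (hf _ _).1 ((memL n g).1 (mem_product.1 p).1)
    obtain ⟨-, b', -⟩ := (hf _ _).1 ((memL n g').1 (mem_product.1 q).1)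
    obtain rfl : g = g' := funext fun ⟨i, j⟩ => by
      by_cases r : j ≤ n
      · simpa only [exl _ _ _ _ _ _ r] using congrFun e (i, j)
      · rw [b i j (by omega), b' i j (by omega)]
    have u := congrArg (D · 0 (n + 1)) e
    have v := congrArg (D · 1 (n + 1)) e
    simp only [(exS _ _ _ _).2.1, (exS _ _ _ _).2.2.1] at u v
    have := c n le_rfl
    fin_cases k <;> fin_cases k' <;> simp [st] at u v ⊢ <;> omega

theorem EG (n j : ℕ) : (E 6 2 (n + j + 1) : ℤ) = G n j := by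
  induction j generalizing n with
  | succ j ih => rw [← step, ← ih]; congr 2; omega
  | zero =>
    have : {h | HF 2 (n + 1) h ∧ {v | v ∈ grid 2 (n + 1) ∧ Ext 2 (n + 1) h v}.ncard = 6} =
        ↑({h ∈ L n | cnt h n + x (S h n) (D h 0 n) 0 + x (-S h n) (D h 1 n) 0 = 6}) := by
      ext h
      simp only [coe_filter, memL, Set.mem_ofPred_eq]
      exact and_congr_right fun H => by rw [card n h H]
    rw [E, add_zero, this, Set.ncard_coe_finset, card_filter]
    simp [G, V]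

theorem chk : ∀ s ∈ [1, -1], ∀ a ∈ [1, -1], ∀ b ∈ [1, -1], ∀ e < 7, 0 < e → s - b + a ∈ [1, -1] →
    V 7 s a b e - 5 * V 6 s a b e + 10 * V 5 s a b e - 10 * V 4 s a b e + 5 * V 3 s a b e -
    V 2 s a b e = 0 := by decide +kernel

theorem sm : ∀ j < 8, V j 1 0 0 0 + V j (-1) 0 0 0 = [0, 0, 2, 12, 44, 128, 296, 584].getD j 0 := by
  decide +kernel

theorem big (n : ℕ) : G (n + 1) 7 - 5 * G (n + 1) 6 + 10 * G (n + 1) 5 - 10 * G (n + 1) 4 +
    5 * G (n + 1) 3 - G (n + 1) 2 = 0 := by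
  simp only [G, mul_sum, ← sum_add_distrib, ← sum_sub_distrib]
  refine sum_eq_zero fun h p => ?_
  obtain ⟨-, -, a, b⟩ := (hf _ _).1 ((memL _ h).1 p)
  by_cases q : cnt h (n + 1) < 7
  · refine chk _ (by simpa using a _ le_rfl) _ (by simpa using b 0 (by omega) n (by omega)) _
      (by simpa using b 1 (by omega) n (by omega)) _ q ?_ ?_
    · refine lt_of_lt_of_le ?_ (single_le_sum (fun _ _ => Nat.zero_le _) (mem_range.2 n.succ_pos))
      have := a 0 (by omega)
      have := a 1 (by omega)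
      have := b 0 (by omega) 0 (by omega)
      have := b 1 (by omega) 0 (by omega)
      simp only [x, S, D, Nat.zero_sub, zero_add, Nat.sub_self] at *
      split_ifs <;> omega
    · have := a n (by omega)
      simp only [S, D, Nat.add_sub_cancel, List.mem_cons, List.not_mem_nil, or_false] at *
      omega
  · simp [V0 _ _ _ _ _ (show 6 < cnt h (n + 1) by omega)]

theorem small (j : ℕ) (p : j < 8) :
    (E 6 2 (j + 1) : ℤ) = [0, 0, 2, 12, 44, 128, 296, 584].getD j 0 := by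
  classical
  have := EG 0 j
  rw [zero_add] at this
  rw [this, ← sm j p, G, L, sum_pair fun e => by simpa using congrFun e (1, 0)]
  simp [S, D, cnt]

open PowerSeries in
theorem gf : F 6 2 * (1 - X) ^ 5 =
    2 * X ^ 3 + 2 * X ^ 4 + 4 * X ^ 5 + 8 * X ^ 6 - 14 * X ^ 7 + 2 * X ^ 8 := by
  have e : F 6 2 * (1 - X) ^ 5 = F 6 2 - (5 : ℚ) • (F 6 2 * X ^ 1) + (10 : ℚ) • (F 6 2 * X ^ 2) -
      (10 : ℚ) • (F 6 2 * X ^ 3) + (5 : ℚ) • (F 6 2 * X ^ 4) - F 6 2 * X ^ 5 := by
    simp only [smul_eq_C_mul, map_ofNat]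
    ring
  have r : ∀ c : ℕ, ∀ k, [c.AtLeastTwo] → (ofNat(c) * X ^ k : PowerSeries ℚ) =
      (ofNat(c) : ℚ) • X ^ k := fun c k _ => by simp only [smul_eq_C_mul, map_ofNat]
  rw [e]
  ext n
  simp only [r, map_add, map_sub, map_smul, coeff_mul_X_pow', coeff_X_pow, F, coeff_mk, smul_eq_mul]
  by_cases h : n < 9
  · have t := fun j p => congrArg (Int.cast : ℤ → ℚ) (small j p)
    have := t 1; have := t 2; have := t 3; have := t 4; have := t 5; have := t 6; have := t 7
    clear t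
    interval_cases n <;> simp_all <;> norm_num
  · obtain ⟨n, rfl⟩ : ∃ k, n = k + 9 := ⟨n - 9, by omega⟩
    have := congrArg (Int.cast : ℤ → ℚ) (big n)
    simp only [← EG, add_assoc] at this
    simpa using this

theorem result : (∃ P : Polynomial ℚ, F 6 2 * (1 - .X) ^ 5 = P ∧ P.eval 1 = 4 ∧
      -P.derivative.eval 1 = 0) ∧
    ¬ ∀ d ≥ 5, ∀ m ≥ 2, ∃ P : Polynomial ℚ, F d m * (1 - .X) ^ (d - 1) = P ∧
      -P.derivative.eval 1 = -4 * ((d : ℚ) - 4) := by
  have k : ∃ P : Polynomial ℚ, F 6 2 * (1 - .X) ^ 5 = P ∧ P.eval 1 = 4 ∧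
      -P.derivative.eval 1 = 0 := by
    refine ⟨2 * .X ^ 3 + 2 * .X ^ 4 + 4 * .X ^ 5 + 8 * .X ^ 6 - 14 * .X ^ 7 + 2 * .X ^ 8, ?_, ?_, ?_⟩
    · rw [gf, ← Polynomial.coeToPowerSeries.ringHom_apply]
      simp only [map_ofNat, map_add, map_sub, map_mul, map_pow,
        Polynomial.coeToPowerSeries.ringHom_apply, Polynomial.coe_X]
    all_goals simp; norm_num
  refine ⟨k, fun H => ?_⟩
  obtain ⟨P, a, b⟩ := H 6 (by decide) 2 le_rfl
  obtain ⟨Q, c, -, d⟩ := k
  rw [Polynomial.coe_inj.1 (a.symm.trans c), d] at b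
  norm_num at b

end Pool.Agent.Results.MP_562107_co.Counter
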